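import Pool.Agent.helper70.FI.SpecQ1

/-!
# Project fi, row fib:QMS: sum of the squares of a section
-/

set_option autoImplicit false

namespace Pool.Agent.FI

open Pool.Agent.helper58.DC Pool.Agent.DI Pool.Agent.GR Pool.Agent.OB

theorem QMS_alg {V E : Type} (S : Finset V) (T : Finset E) (a b : E → ℂ) (f g : E → V → ℂ) :
    ∑ v ∈ S, (∑ η ∈ T, a η * f η v) * (∑ η ∈ T, b η * g η v) =
      ∑ η ∈ T, ∑ η' ∈ T, a η * b η' * ∑ v ∈ S, f η v * g η' v := by
  have h1 : ∀ v ∈ S, (∑ η ∈ T, a η * f η v) * (∑ η ∈ T, b η * g η v) =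
      ∑ η ∈ T, ∑ η' ∈ T, a η * b η' * (f η v * g η' v) := by
    intro v _
    rw [Finset.sum_mul_sum]
    refine Finset.sum_congr rfl fun η _ => Finset.sum_congr rfl fun η' _ => ?_
    ring
  rw [Finset.sum_congr rfl h1, Finset.sum_comm]
  refine Finset.sum_congr rfl fun η _ => ?_
  rw [Finset.sum_comm]
  refine Finset.sum_congr rfl fun η' _ => ?_
  rw [Finset.mul_sum]

theorem QMS (hQSM : QSM_stmt) (hQCE : QCE_stmt) (hCHC : CHC_stmt) (hB2 : B2_stmt) : QMS_stmt := by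
  classical
  intro p M hM G _ _ L y hy hyp θ χ' hχ
  have hyK : y ∈ Cz L y := by
    refine Subgroup.mem_inf.2 ⟨hy, Subgroup.mem_centralizer_iff.2 fun h hh => ?_⟩
    rw [Set.mem_singleton_iff.1 hh]
  have hcen : Cen (Cz L y) y := by
    intro l hl
    exact (Subgroup.mem_centralizer_iff.1 (Subgroup.mem_inf.1 hl).2 y (Set.mem_singleton y)).symm
  have hT : (BlC M L θ y).Finite := (hB2 G (Cz L y)).1.subset fun ψ h => h.1
  have hSf : {v : G | v ∈ Cz L y ∧ PReg p v}.Finite := Set.toFinite _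
  have hcard : (Nat.card (Cz L y) : ℂ) ≠ 0 := by exact_mod_cast Nat.card_pos.ne'
  have h1 : ∀ v ∈ hSf.toFinset, χ' (y * v) = ∑ η ∈ hT.toFinset, (mt (Cz L y) χ' η * (η y / η 1)) * η v := by
    intro v hv
    have hv' := hSf.mem_toFinset.1 hv
    have h2 := hQSM p M hM G L y hy hyp θ v hv'.1 hv'.2 χ' hχ.1
    rw [if_pos hχ, finsum_mem_eq_finite_toFinset_sum _ hT] at h2
    rw [← h2]
    refine Finset.sum_congr rfl fun η hη => ?_
    have hη' := (hT.mem_toFinset.1 hη).1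
    have h3 := (hQCE G (Cz L y) y hyK hcen η hη').1 v
    obtain ⟨n, hn, hn1, _⟩ := ((hB2 G (Cz L y)).2 η hη').1
    have h4 : η 1 ≠ 0 := by
      rw [hn1]
      exact_mod_cast hn.ne'
    have h5 : η (y * v) = η y / η 1 * η v := by
      rw [div_mul_eq_mul_div, eq_div_iff h4, h3]
    rw [h5]
    ring
  have h2 : ∀ v ∈ hSf.toFinset, χ' (y * v)⁻¹ =
      ∑ η ∈ hT.toFinset, (starRingEnd ℂ) (mt (Cz L y) χ' η * (η y / η 1)) * η v⁻¹ := by
    intro v hv
    rw [← hCHC G L χ' hχ.1 (y * v), h1 v hv, map_sum]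
    refine Finset.sum_congr rfl fun η hη => ?_
    have hη' := (hT.mem_toFinset.1 hη).1
    rw [map_mul _ (mt (Cz L y) χ' η * (η y / η 1)) (η v), hCHC G (Cz L y) η hη' v]
  have h3 : ∀ η η' : G → ℂ, (Nat.card (Cz L y) : ℂ) * EE p (Cz L y) η η' = ∑ v ∈ hSf.toFinset, η v * η' v⁻¹ := by
    intro η η'
    unfold EE
    rw [mul_div_cancel₀ _ hcard, finsum_mem_eq_finite_toFinset_sum _ hSf]
  rw [finsum_mem_eq_finite_toFinset_sum _ hSf, finsum_mem_eq_finite_toFinset_sum _ hT]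
  have h4 : ∀ v ∈ hSf.toFinset, χ' (y * v) * χ' (y * v)⁻¹ =
      (∑ η ∈ hT.toFinset, (mt (Cz L y) χ' η * (η y / η 1)) * η v) *
        (∑ η ∈ hT.toFinset, (starRingEnd ℂ) (mt (Cz L y) χ' η * (η y / η 1)) * η v⁻¹) := by
    intro v hv
    rw [h2 v hv, ← h1 v hv]
  rw [Finset.sum_congr rfl h4, QMS_alg hSf.toFinset hT.toFinset (fun η => mt (Cz L y) χ' η * (η y / η 1))
    (fun η => (starRingEnd ℂ) (mt (Cz L y) χ' η * (η y / η 1))) (fun η v => η v) (fun η v => η v⁻¹), Finset.mul_sum]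
  refine Finset.sum_congr rfl fun η _ => ?_
  rw [finsum_mem_eq_finite_toFinset_sum _ hT, Finset.mul_sum]
  refine Finset.sum_congr rfl fun η' _ => ?_
  rw [← h3 η η']
  ring

end Pool.Agent.FI
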