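import Pool.Agent.helper70.FI.SpecQ1
import Pool.Agent.helper64.DI.B3

/-!
# Project fi, row fib:QRP: characters of representations are sums of irreducible characters
-/

set_option autoImplicit false

namespace Pool.Agent.FI

open Pool.Agent.helper58.DC Pool.Agent.DI Pool.Agent.GR Pool.Agent.OB

theorem QRP : QRP_stmt := fun H _ _ V _ _ _ ρ => B3_grp H V ρ

end Pool.Agent.FI
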